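import Pool.Agent.ATP.Stmts
import Pool.Agent.Helper24_K9.Duc
import Pool.Agent.Helper32_AT2.FST
import Pool.Agent.Helper3_C2.GDV
import Pool.Agent.Helper69_K9.Fmg

/-!
# ATP, row PMX: every pair under the block `e` is contained in a pair of a defect group
-/

open scoped BigOperators

noncomputable section

namespace Pool.Agent.PP.TP.H16

open Pool.Agent.Helper51_AWC Pool.Agent.Helper79_WRA Pool.Agent.PP Pool.Agent.PP.KF
open Pool.Agent.PP.K9 Pool.Agent.PP.K9.H97 Pool.Agent.PP.H75 Pool.Agent.PP.T3 Pool.Agent.PP.T2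
open Pool.Agent.PP.TB

attribute [local instance] Ideal.Quotient.field

set_option linter.unusedSectionVars false

section tools

variable {F G : Type} [Field F] [Group G] [Finite G]

/-- a block of `K` under the idempotent `E` on which an additive map does not vanish -/
theorem blk_over {K : Subgroup G} {E : G → F} (hE : Ix K E) {A : Type} [AddCommGroup A]
    (L : (G → F) → A) (hL0 : L 0 = 0) (hL : ∀ a b, L (a + b) = L a + L b) (h : L E ≠ 0) :
    ∃ b : G → F, Bx K b ∧ mulF E b = b ∧ L b ≠ 0 := by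
  have hadd : ∀ a b : K → F, H75.ext0 K (a + b) = H75.ext0 K a + H75.ext0 K b := by
    intro a b
    funext x
    by_cases hx : x ∈ K
    · have h1 := H75.ext0_apply K (a + b) ⟨x, hx⟩
      have h2 := H75.ext0_apply K a ⟨x, hx⟩
      have h3 := H75.ext0_apply K b ⟨x, hx⟩
      change H75.ext0 K (a + b) x = _ at h1
      change H75.ext0 K a x = _ at h2
      change H75.ext0 K b x = _ at h3
      rw [h1, Pi.add_apply, Pi.add_apply, h2, h3]
    · rw [Pi.add_apply, H75.ext0_supp K _ x hx, H75.ext0_supp K _ x hx, H75.ext0_supp K _ x hx,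
        add_zero]
  have h0 : H75.ext0 K (0 : K → F) = 0 := by
    funext x
    by_cases hx : x ∈ K
    · exact H75.ext0_apply K (0 : K → F) ⟨x, hx⟩
    · exact H75.ext0_supp K _ x hx
  obtain ⟨b, hb, hb2, hb3⟩ := K9.H24.exists_blk (fun a : K → F => L (H75.ext0 K a))
    (by rw [h0, hL0]) (fun a b => by rw [hadd, hL]) hE.idem
    (by
      rw [H75.ext0_res K hE.supp]
      exact h)
  refine ⟨H75.ext0 K b, ⟨H75.ext0_supp K b, ?_⟩, ?_, hb3⟩
  · rw [show (fun t : K => H75.ext0 K b t) = b from funext (H75.ext0_apply K b)]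
    exact hb
  · have h1 := H75.ext0_mulF K (fun t : K => E t) b
    rw [hb2, H75.ext0_res K hE.supp] at h1
    exact h1.symm

theorem res_ext0 {K : Subgroup G} (b : K → F) : (fun t : K => H75.ext0 K b t) = b :=
  funext (H75.ext0_apply K b)

end tools

/-- the induction -/
theorem pmx_aux (np1 : Np1Stmt) (pcj : PcjStmt) (pxb : PxbStmt) (ℓ : ℕ) [Fact ℓ.Prime]
    (M : Ideal (integralClosure ℤ ℂ)) [M.IsMaximal] (hM : (ℓ : integralClosure ℤ ℂ) ∈ M)
    (G : Type) [Group G] [Finite G] (e : G → FF M) (V : Subgroup G) (he : IsBlk e)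
    (hV : Tp ℓ e V) : ∀ (m : ℕ) (P : Subgroup G) (c : G → FF M), Nat.card V - Nat.card P ≤ m →
      Pq ℓ P c → mulF (br P e) c = c →
      ∃ (x : G) (γ' : G → FF M), Pq ℓ (conjS x V) γ' ∧ Le ℓ P c (conjS x V) γ' := by
  intro m
  induction m with
  | zero =>
    intro P c hm hP hc
    have hPe : Gd e P := C2.H3.gd_of_br' (by
      intro h0
      rw [h0, H75.mulF_zero_left] at hc
      exact hP.blk.ne hc.symm)
    obtain ⟨hfm, -, -⟩ := K9.H69.fmg ℓ M hM G e he V hV
    obtain ⟨g, hg⟩ := hfm P hP.pg hPe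
    have hcard : Nat.card P = Nat.card V := by
      have h1 := hV.mx P hP.pg hPe
      omega
    have hPV : P = conjS g V := by
      apply Subgroup.eq_of_le_of_card_ge hg
      rw [K9.H69.card_conj, hcard]
    refine ⟨g, c, hPV ▸ hP, ?_⟩
    rw [← hPV]
    exact Le.refl
  | succ m ih =>
    intro P c hm hP hc
    have hF : GoodF ℓ (FF M) := H50.fld ℓ Fact.out M hM
    have hPe : Gd e P := C2.H3.gd_of_br' (by
      intro h0
      rw [h0, H75.mulF_zero_left] at hc
      exact hP.blk.ne hc.symm)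
    by_cases hlt : Nat.card P < Nat.card V
    swap
    · exact ih P c (by omega) hP hc
    obtain ⟨N, hN⟩ : ∃ N : Subgroup G, N = Subgroup.normalizer (P : Set G) := ⟨_, rfl⟩
    obtain ⟨C, hC⟩ : ∃ C : Subgroup G, C = Subgroup.centralizer (P : Set G) := ⟨_, rfl⟩
    have hCN : C ≤ N := by
      rw [hC, hN]
      exact Subgroup.centralizer_le_normalizer _
    have hPN : P ≤ N := by
      rw [hN]
      exact Subgroup.le_normalizer
    have hcB : Bx C c := hC ▸ hP.blk
    -- the idempotent `br_P(e)` of `N`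
    have hbrP : Ix N (br P e) := by
      refine ⟨fun x hx => br_out e (fun h => hx (hCN (hC ▸ h))), ?_⟩
      rw [hN]
      exact (H20.brm ℓ (FF M) hF G P _ hP.pg (Subgroup.centralizer_le_normalizer _) le_rfl).2.2 e
        he.1
    obtain ⟨f, hf, hff, hfc⟩ := blk_over hbrP (fun a : G → FF M => mulF a c)
      (H75.mulF_zero_left c) (fun a b => K9.H24.mulF_add_l a b c) (by
        change mulF (br P e) c ≠ 0
        rw [hc]
        exact hP.blk.ne)
    -- `f` is supported on `C(P)`
    have hfs : br P f = f := T2.H32.supp_cent hF hP.pg hPN (hC ▸ hCN) (hN ▸ le_rfl) hf.ix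
    have hfC : Ix C f := by
      have h1 := T2.H32.ix_br hF hP.pg hPN (hC ▸ hCN) hf.ix
      rw [hfs] at h1
      exact hC ▸ h1
    have hfcc : mulF f c = c := by
      rcases hcB.dich' hfC with h1 | h1
      · rw [hfC.comm hcB.ix, h1]
      · exfalso
        apply hfc
        change mulF f c = 0
        rw [hfC.comm hcB.ix, h1]
    -- a larger good subgroup
    obtain ⟨P', hP', hgd, hPP'⟩ := K9.H24.dun K9.H69.fmg ℓ M hM G e he V hV P hP.pg hlt
      (fun t : Subgroup.normalizer (P : Set G) => f t) (by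
        have := hf.blk
        subst hN
        exact this) (by
        have h1 := H75.mulF_res (Subgroup.normalizer (P : Set G)) (a := br P e) f
          (fun x hx => hbrP.supp x (fun h => hx (hN ▸ h)))
        rw [hff] at h1
        exact h1.symm)
    obtain ⟨R, hR⟩ : ∃ R : Subgroup G,
      R = P'.map (Subgroup.normalizer (P : Set G)).subtype := ⟨_, rfl⟩
    have hRp : IsPGroup ℓ R := by
      rw [hR]
      exact hP'.map _
    have hPR : P < R := by
      rw [hR]
      have h1 := (Subgroup.map_lt_map_iff_of_injective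
        (f := (Subgroup.normalizer (P : Set G)).subtype)
        (Subgroup.normalizer (P : Set G)).subtype_injective).2 hPP'
      rwa [Subgroup.map_subgroupOf_eq_of_le (hN ▸ hPN)] at h1
    have hRN : R ≤ N := by
      rw [hR, hN]
      exact Subgroup.map_subtype_le _
    have hRN' : R ≤ Subgroup.normalizer (P : Set G) := hN ▸ hRN
    have hRC : Subgroup.centralizer (R : Set G) ≤ C := by
      rw [hC]
      exact Subgroup.centralizer_le hPR.le
    have hgd' : Gd f R := by
      obtain ⟨t, ht, ht2⟩ := hgd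
      refine ⟨t, ?_, ht2⟩
      rw [Subgroup.mem_centralizer_iff] at ht ⊢
      intro y hy
      rw [hR] at hy
      obtain ⟨s, hs, rfl⟩ := hy
      exact congrArg Subtype.val (ht s hs)
    have hbrR : Ix (Subgroup.centralizer (R : Set G)) (br R f) :=
      T2.H32.ix_br hF hRp hRN (hRC.trans hCN) hf.ix
    obtain ⟨c'', hc'', hfc'', -⟩ := blk_over hbrR (fun a : G → FF M => a) rfl (fun _ _ => rfl)
      (C2.H3.br_ne_of_gd hgd')
    obtain ⟨c₁, hc₁, hnl, -⟩ := np1 ℓ (FF M) hF G P R hRp hPR.le hRN' c'' hc''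
    -- `f c₁ = c₁`
    have hinv₁ : H66.Inv R c₁ := fun x hx => (cj_eq_iff x c₁).1 (hnl.inv x hx)
    have hinvf : H66.Inv R f := fun x hx => (cj_eq_iff x f).1 (hf.ix.inv (hRN hx))
    have hc₁C : Bx C c₁ := hC ▸ hc₁
    have hfc₁ : mulF f c₁ = c₁ := by
      rcases hc₁C.dich' hfC with h1 | h1
      · rw [hfC.comm hc₁C.ix, h1]
      · exfalso
        have h2 : mulF (br R (mulF c₁ f)) c'' = c'' := by
          rw [H66.br_mulF hF hRp hinv₁ hinvf, H20.mulF_assoc, hfc'', hnl.und]
        rw [h1] at h2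
        have h3 : br R (0 : G → FF M) = 0 := by
          funext t
          by_cases ht : t ∈ Subgroup.centralizer (R : Set G)
          · rw [br_in _ ht]
          · rw [br_out _ ht]
            rfl
        rw [h3, H75.mulF_zero_left] at h2
        exact hc''.ne h2.symm
    -- conjugation
    have hNC : N ≤ Subgroup.normalizer (C : Set G) := by
      rw [hN, hC]
      intro g hg
      rw [Subgroup.mem_normalizer_iff]
      have key : ∀ g ∈ Subgroup.normalizer (P : Set G), ∀ y : G,
          y ∈ Subgroup.centralizer (P : Set G) →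
          g * y * g⁻¹ ∈ Subgroup.centralizer (P : Set G) := by
        intro g hg y hy
        rw [Subgroup.mem_centralizer_iff] at hy ⊢
        intro r hr
        have h2 : g⁻¹ * r * g ∈ P := by
          have := (Subgroup.mem_normalizer_iff.1 (Subgroup.inv_mem _ hg) r).1 hr
          rwa [inv_inv] at this
        have h3 := hy _ h2
        calc r * (g * y * g⁻¹) = g * (g⁻¹ * r * g * y) * g⁻¹ := by group
          _ = g * (y * (g⁻¹ * r * g)) * g⁻¹ := by rw [h3]
          _ = g * y * g⁻¹ * r := by group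
      intro y
      refine ⟨key g hg y, fun h => ?_⟩
      have h1 := key g⁻¹ (inv_mem hg) _ h
      have h2 : g⁻¹ * (g * y * g⁻¹) * g⁻¹⁻¹ = y := by group
      rwa [h2] at h1
    obtain ⟨n, hn, hnc⟩ := K9.H97.orb ℓ (FF M) hF G N C hCN hNC f hfC.supp hf.blk c₁ c
      hc₁C.supp hcB.supp hc₁C.blk hcB.blk hfc₁ hfcc
    have hcj : cj n⁻¹ c₁ = c := by
      funext x
      rw [hnc x]
      unfold cj
      rw [inv_inv]
    have hconj : conjS n⁻¹ P = P := by
      ext x
      rw [mem_conjS, inv_inv]
      exact (Subgroup.mem_normalizer_iff.1 (hN ▸ hn) x).symm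
    obtain ⟨pc1, pc2, -, -⟩ := pcj ℓ (FF M) G n⁻¹
    have hR' := pc1 R c'' ⟨hRp, hc''⟩
    have hnl' := pc2 P R c₁ c'' hnl
    rw [hcj, hconj] at hnl'
    have hle := Le.one hP hR' hnl'
    have hixe : Ix (⊤ : Subgroup G) e := by
      refine ⟨fun x hx => absurd (Subgroup.mem_top x) hx, ?_, ?_⟩
      · intro x y
        exact he.1.1 x y
      · rw [← H75.mulF_res (⊤ : Subgroup G) e (fun x hx => absurd (Subgroup.mem_top x) hx), he.1.2]
    have hce := (pxb ℓ (FF M) hF G ⊤ e hixe _ _ hR' le_top P c hP le_top hle).1 hc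
    have hcard : Nat.card P < Nat.card R := by
      have h1 : (P : Set G) ⊂ (R : Set G) := hPR
      have h2 := Set.ncard_lt_ncard h1 (Set.toFinite _)
      exact h2
    obtain ⟨x, γ', hx1, hx2⟩ := ih (conjS n⁻¹ R) (cj n⁻¹ c'') (by
      rw [K9.H69.card_conj]
      omega) hR' hce
    exact ⟨x, γ', hx1, hle.trans hx2⟩

/-- row PMX -/
theorem pmx (np1 : Np1Stmt) (pcj : PcjStmt) (pxb : PxbStmt) : PmxStmt := by
  intro ℓ _ M _ hM G _ _ e V he hV Q b hQ hb
  exact pmx_aux np1 pcj pxb ℓ M hM G e V he hV _ Q b le_rfl hQ hb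

end Pool.Agent.PP.TP.H16
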